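import Pool.Agent.helper96.DP.API
import Pool.Agent.helper95.DP.Fin

/-!
# Module BIND: independence of events with disjoint supports under the pair measure
-/

set_option autoImplicit false

namespace DP

open MeasureTheory

/-- Independence for functions of pairs of configurations with disjoint finite supports. -/
theorem Bindep_ex2 (ρ : V → ℝ) {Λ Λ' : Finset V} (hd : Disjoint Λ Λ')
    {h h' : (V → Bool × Bool) → ℝ} (hh : LF Λ h) (hh' : LF Λ' h') :
    ex2 ρ (fun w => h w * h' w) = ex2 ρ h * ex2 ρ h' := by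
  classical
  induction Λ using Finset.induction_on generalizing h with
  | empty =>
    have h1 : h = fun _ => h (fun _ => default) := funext fun w => hh.empty _ _
    rw [h1, ex2_const, ex2_mul]
  | insert v s hv ih =>
    have hv' : v ∉ Λ' := Finset.disjoint_left.1 hd (Finset.mem_insert_self v s)
    have hs : Disjoint s Λ' := hd.mono_left (Finset.subset_insert v s)
    have hp : LF (insert v s ∪ Λ') (fun w => h w * h' w) :=
      (hh.mono Finset.subset_union_left).comp₂ (hh'.mono Finset.subset_union_right) (· * ·)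
    rw [ex2_site ρ hp v, ex2_site ρ hh v, Finset.sum_mul]
    refine Finset.sum_congr rfl fun a _ => ?_
    have h2 : (fun w => h (Function.update w v a) * h' (Function.update w v a)) =
        fun w => upd h v a w * h' w := by
      funext w
      rw [hh'.update_eq hv' w a]
      rfl
    rw [h2, ih hs (hh.upd a), mul_assoc]
    rfl

/-- Independence for functions of one configuration. -/
theorem Bindep_ex1 {Λ Λ' : Finset V} (hd : Disjoint Λ Λ') {f f' : (V → Bool) → ℝ}
    (hf : LF Λ f) (hf' : LF Λ' f') : ex1 (fun b => f b * f' b) = ex1 f * ex1 f' := by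
  classical
  have h1 : LF (Λ ∪ Λ') (fun b => f b * f' b) :=
    (hf.mono Finset.subset_union_left).comp₂ (hf'.mono Finset.subset_union_right) (· * ·)
  rw [← ex2_fst (fun _ => 0) h1, ← ex2_fst (fun _ => 0) hf, ← ex2_fst (fun _ => 0) hf',
    ← Bindep_ex2 (fun _ => 0) hd hf.fst hf'.fst]

/-- Independence for the bilinear form. -/
theorem Bindep_bf (ρ : V → ℝ) {Λ Λ' : Finset V} (hd : Disjoint Λ Λ') {f g f' g' : (V → Bool) → ℝ}
    (hf : LF Λ f) (hg : LF Λ g) (hf' : LF Λ' f') (hg' : LF Λ' g') :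
    bf ρ (fun b => f b * f' b) (fun b => g b * g' b) = bf ρ f g * bf ρ f' g' := by
  unfold bf
  rw [← Bindep_ex2 ρ hd (lf_pair hf hg) (lf_pair hf' hg')]
  congr 1
  funext w
  ring

theorem Bindep : Bindep_stmt := by
  classical
  intro ρ F G F' G' A A' hA hF hG hF' hG'
  obtain ⟨Λ, h1, h2, h3⟩ := hF.common hG
  obtain ⟨Λ', h1', h2', h3'⟩ := hF'.common hG'
  rw [Set.union_self] at h1 h1'
  have hd : Disjoint Λ Λ' := by
    rw [← Finset.disjoint_coe]
    exact hA.mono h1 h1'
  have hu : (Λ : Set V) ⊆ ((Λ ∪ Λ' : Finset V) : Set V) := by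
    rw [Finset.coe_union]; exact Set.subset_union_left
  have hu' : (Λ' : Set V) ⊆ ((Λ ∪ Λ' : Finset V) : Set V) := by
    rw [Finset.coe_union]; exact Set.subset_union_right
  have hFF : Dep (F ∩ F') ((Λ ∪ Λ' : Finset V) : Set V) := fun b b' hb =>
    and_congr (h2.mono hu b b' hb) (h2'.mono hu' b b' hb)
  have hGG : Dep (G ∩ G') ((Λ ∪ Λ' : Finset V) : Set V) := fun b b' hb =>
    and_congr (h3.mono hu b b' hb) (h3'.mono hu' b b' hb)
  rw [Q_eq ρ hFF hGG, Q_eq ρ h2 h3, Q_eq ρ h2' h3', ← Bindep_bf ρ hd h2.lf h3.lf h2'.lf h3'.lf]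
  congr 1
  · funext b
    exact ind_inter F F' b
  · funext b
    exact ind_inter G G' b

/-- Independence for one configuration. -/
theorem Bindep_Pr {F F' : Set (V → Bool)} {A A' : Set V} (hA : Disjoint A A') (hF : Loc F A)
    (hF' : Loc F' A') : Pr (F ∩ F') = Pr F * Pr F' := by
  classical
  obtain ⟨Λ, h1, h2⟩ := hF
  obtain ⟨Λ', h1', h2'⟩ := hF'
  have hd : Disjoint Λ Λ' := by
    rw [← Finset.disjoint_coe]
    exact hA.mono h1 h1'
  have hu : (Λ : Set V) ⊆ ((Λ ∪ Λ' : Finset V) : Set V) := by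
    rw [Finset.coe_union]; exact Set.subset_union_left
  have hu' : (Λ' : Set V) ⊆ ((Λ ∪ Λ' : Finset V) : Set V) := by
    rw [Finset.coe_union]; exact Set.subset_union_right
  have hFF : Dep (F ∩ F') ((Λ ∪ Λ' : Finset V) : Set V) := fun b b' hb =>
    and_congr (h2.mono hu b b' hb) (h2'.mono hu' b b' hb)
  rw [Pr_eq hFF, Pr_eq h2, Pr_eq h2', ← Bindep_ex1 hd h2.lf h2'.lf]
  congr 1
  funext b
  exact ind_inter F F' b

end DP
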