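import Pool.Agent.helper96.DP.SpecE
import Pool.Agent.helper96.DP.Basic

/-!
# Module NT: off the bad events free arms are marked at points of a net
-/

set_option autoImplicit false

namespace DP

open MeasureTheory

/-- Small displacements do not change the cyclic order (positions on the circle). -/
theorem NT_order (N a p₁ p₂ p₃ q₁ q₂ q₃ : ℤ) (ha : 0 ≤ a)
    (hp₁ : 0 < p₁ ∧ p₁ ≤ 8 * N) (hp₂ : 0 < p₂ ∧ p₂ ≤ 8 * N) (hp₃ : 0 < p₃ ∧ p₃ ≤ 8 * N)
    (hq₁ : 0 < q₁ ∧ q₁ ≤ 8 * N) (hq₂ : 0 < q₂ ∧ q₂ ≤ 8 * N) (hq₃ : 0 < q₃ ∧ q₃ ≤ 8 * N)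
    (h₁ : |p₁ - q₁| ≤ 2 * a ∨ 8 * N - |p₁ - q₁| ≤ 2 * a)
    (h₂ : |p₂ - q₂| ≤ 2 * a ∨ 8 * N - |p₂ - q₂| ≤ 2 * a)
    (h₃ : |p₃ - q₃| ≤ 2 * a ∨ 8 * N - |p₃ - q₃| ≤ 2 * a)
    (h₁₂ : 8 * a < |p₁ - p₂| ∧ 8 * a < 8 * N - |p₁ - p₂|)
    (h₂₃ : 8 * a < |p₂ - p₃| ∧ 8 * a < 8 * N - |p₂ - p₃|)
    (h₁₃ : 8 * a < |p₁ - p₃| ∧ 8 * a < 8 * N - |p₁ - p₃|)
    (h : if p₁ ≤ p₃ then p₁ ≤ p₂ ∧ p₂ ≤ p₃ else p₁ ≤ p₂ ∨ p₂ ≤ p₃) :
    if q₁ ≤ q₃ then q₁ ≤ q₂ ∧ q₂ ≤ q₃ else q₁ ≤ q₂ ∨ q₂ ≤ q₃ := by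
  have e₁ : (p₁ - q₁ ≤ 2 * a ∧ q₁ - p₁ ≤ 2 * a) ∨ 8 * N - (p₁ - q₁) ≤ 2 * a ∨
      8 * N - (q₁ - p₁) ≤ 2 * a := by
    rcases abs_cases (p₁ - q₁) with h' | h' <;> omega
  have e₂ : (p₂ - q₂ ≤ 2 * a ∧ q₂ - p₂ ≤ 2 * a) ∨ 8 * N - (p₂ - q₂) ≤ 2 * a ∨
      8 * N - (q₂ - p₂) ≤ 2 * a := by
    rcases abs_cases (p₂ - q₂) with h' | h' <;> omega
  have e₃ : (p₃ - q₃ ≤ 2 * a ∧ q₃ - p₃ ≤ 2 * a) ∨ 8 * N - (p₃ - q₃) ≤ 2 * a ∨
      8 * N - (q₃ - p₃) ≤ 2 * a := by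
    rcases abs_cases (p₃ - q₃) with h' | h' <;> omega
  have f₁₂ : (8 * a < p₁ - p₂ ∨ 8 * a < p₂ - p₁) ∧ 8 * a < 8 * N - (p₁ - p₂) ∧
      8 * a < 8 * N - (p₂ - p₁) := by
    rcases abs_cases (p₁ - p₂) with h' | h' <;> omega
  have f₂₃ : (8 * a < p₂ - p₃ ∨ 8 * a < p₃ - p₂) ∧ 8 * a < 8 * N - (p₂ - p₃) ∧
      8 * a < 8 * N - (p₃ - p₂) := by
    rcases abs_cases (p₂ - p₃) with h' | h' <;> omega
  have f₁₃ : (8 * a < p₁ - p₃ ∨ 8 * a < p₃ - p₁) ∧ 8 * a < 8 * N - (p₁ - p₃) ∧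
      8 * a < 8 * N - (p₃ - p₁) := by
    rcases abs_cases (p₁ - p₃) with h' | h' <;> omega
  clear h₁ h₂ h₃ h₁₂ h₂₃ h₁₃
  rcases e₁ with e₁ | e₁ | e₁ <;> rcases e₂ with e₂ | e₂ | e₂ <;> rcases e₃ with e₃ | e₃ | e₃ <;>
    rcases f₁₂ with ⟨f₁₂ | f₁₂, f₁₂', f₁₂''⟩ <;> rcases f₂₃ with ⟨f₂₃ | f₂₃, f₂₃', f₂₃''⟩ <;>
    rcases f₁₃ with ⟨f₁₃ | f₁₃, f₁₃', f₁₃''⟩ <;> split_ifs at h ⊢ <;> omega

theorem NT_close {x : V} {n : ℕ} (hCG2 : CG2_stmt) (hn : 1 ≤ n) {u v : V} (hu : u ∈ bd x n)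
    (hv : v ∈ bd x n) {a : ℕ} (h : sd u v ≤ a) :
    |pos x n u - pos x n v| ≤ 2 * (a : ℤ) ∨ 8 * (n : ℤ) - |pos x n u - pos x n v| ≤ 2 * (a : ℤ) := by
  have h1 := (hCG2 x n hn u hu v hv).2.2
  have h2 : (2 * (sd u v : ℤ)) ≤ 2 * (a : ℤ) := by
    have : (sd u v : ℤ) ≤ a := by exact_mod_cast h
    linarith
  exact min_le_iff.1 (h1.trans h2)

theorem NT_far {x : V} {n : ℕ} (hCG2 : CG2_stmt) (hn : 1 ≤ n) {u v : V} (hu : u ∈ bd x n)
    (hv : v ∈ bd x n) {b : ℤ} (h : b < sd u v) :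
    b < |pos x n u - pos x n v| ∧ b < 8 * (n : ℤ) - |pos x n u - pos x n v| := by
  obtain ⟨h1, h2, -⟩ := hCG2 x n hn u hu v hv
  exact ⟨by linarith, by linarith⟩

/-- Small displacements do not change the relation `onArc`. -/
theorem NT_onArc {x : V} {n a : ℕ} (hCG1 : CG1_stmt) (hCG2 : CG2_stmt) (hn : 1 ≤ n)
    {u₁ u₂ u₃ y₁ y₂ y₃ : V} (hy₁ : y₁ ∈ bd x n) (hy₂ : y₂ ∈ bd x n) (hy₃ : y₃ ∈ bd x n)
    (h₁ : sd u₁ y₁ ≤ a) (h₂ : sd u₂ y₂ ≤ a) (h₃ : sd u₃ y₃ ≤ a)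
    (h₁₂ : 8 * a < sd u₁ u₂) (h₂₃ : 8 * a < sd u₂ u₃) (h₁₃ : 8 * a < sd u₁ u₃)
    (h : onArc x n u₁ u₃ u₂) : onArc x n y₁ y₃ y₂ := by
  obtain ⟨hu₁, hu₃, hu₂, h⟩ := h
  refine ⟨hy₁, hy₃, hy₂, ?_⟩
  have c := (hCG1 x n hn).1
  refine NT_order n a _ _ _ _ _ _ (by positivity) (c u₁ hu₁) (c u₂ hu₂) (c u₃ hu₃) (c y₁ hy₁)
    (c y₂ hy₂) (c y₃ hy₃) (NT_close hCG2 hn hu₁ hy₁ h₁) (NT_close hCG2 hn hu₂ hy₂ h₂)
    (NT_close hCG2 hn hu₃ hy₃ h₃) (NT_far hCG2 hn hu₁ hu₂ (by exact_mod_cast h₁₂))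
    (NT_far hCG2 hn hu₂ hu₃ (by exact_mod_cast h₂₃)) (NT_far hCG2 hn hu₁ hu₃ (by exact_mod_cast h₁₃))
    h

/-- Small displacements of separated points keep the order of the end points. -/
theorem NT_Ord {x : V} {n a j : ℕ} (hj : j = 2 ∨ j = 4) (hCG1 : CG1_stmt) (hCG2 : CG2_stmt)
    (hn : 1 ≤ n) {u y : ℕ → V} (hu : Ord j x n u) (hy : ∀ l < j, y l ∈ bd x n)
    (hc : ∀ l < j, sd (u l) (y l) ≤ a)
    (hs : ∀ l < j, ∀ l' < j, l ≠ l' → 8 * a < sd (u l) (u l')) : Ord j x n y := by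
  have hne : ∀ l < j, ∀ l' < j, l ≠ l' → y l ≠ y l' := by
    intro l hl l' hl' hll e
    have h1 := hs l hl l' hl' hll
    have h2 := sd_triangle (u l) (y l) (u l')
    have h3 := hc l hl
    have h4 := hc l' hl'
    rw [e, sd_comm (y l')] at h2
    rw [e] at h3
    omega
  rcases hj with rfl | rfl
  · unfold Ord
    rw [if_neg (by norm_num)]
    exact hne 0 (by norm_num) 1 (by norm_num) (by norm_num)
  · unfold Ord at hu ⊢
    rw [if_pos rfl] at hu ⊢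
    obtain ⟨-, -, hu⟩ := hu
    have b := hy
    refine ⟨⟨hy 0 (by norm_num), hy 1 (by norm_num), hy 2 (by norm_num), hy 3 (by norm_num)⟩,
      ?_, ?_⟩
    · have e01 := hne 0 (by norm_num) 1 (by norm_num) (by norm_num)
      have e02 := hne 0 (by norm_num) 2 (by norm_num) (by norm_num)
      have e03 := hne 0 (by norm_num) 3 (by norm_num) (by norm_num)
      have e12 := hne 1 (by norm_num) 2 (by norm_num) (by norm_num)
      have e13 := hne 1 (by norm_num) 3 (by norm_num) (by norm_num)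
      have e23 := hne 2 (by norm_num) 3 (by norm_num) (by norm_num)
      simp [e01, e02, e03, e12, e13, e23]
    · have key : ∀ i k l : ℕ, i < 4 → k < 4 → l < 4 → i ≠ k → k ≠ l → i ≠ l →
          onArc x n (u i) (u l) (u k) → onArc x n (y i) (y l) (y k) := by
        intro i k l hi hk hl hik hkl hil h
        exact NT_onArc hCG1 hCG2 hn (hy i hi) (hy k hk) (hy l hl) (hc i hi) (hc k hk) (hc l hl)
          (hs i hi k hk hik) (hs k hk l hl hkl) (hs i hi l hl hil) h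
      rcases hu with ⟨h1, h2⟩ | ⟨h1, h2⟩
      · left
        exact ⟨key 0 1 2 (by norm_num) (by norm_num) (by norm_num) (by norm_num) (by norm_num)
          (by norm_num) h1, key 2 3 0 (by norm_num) (by norm_num) (by norm_num) (by norm_num)
          (by norm_num) (by norm_num) h2⟩
      · right
        exact ⟨key 0 3 2 (by norm_num) (by norm_num) (by norm_num) (by norm_num) (by norm_num)
          (by norm_num) h1, key 2 1 0 (by norm_num) (by norm_num) (by norm_num) (by norm_num)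
          (by norm_num) (by norm_num) h2⟩

/-- The last part of an arm crosses the annulus. -/
theorem NT_crX {c : V → Bool} {s : Bool} {x : V} {n n' r : ℕ} {k : Bool} {G : Set V} {p u : V}
    (hg : gap s n n' r) (hu : u ∈ bd x n) (hcu : c u = k) (hp : far s x n' p)
    (hG : G ⊆ HS s x n) (h : Conn c k G p u) : crX s c x n n' u := by
  have hun : sd x u = n := hu
  have hs : Con {w | w ∈ G ∧ c w = k} u p := Con.symm h
  cases s
  · simp only [gap, Bool.false_eq_true, if_false] at hg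
    simp only [far, Bool.false_eq_true, if_false] at hp
    obtain ⟨w, hw, h1, -⟩ := hs.exit (m := n') (by omega) hp
    simp only [crX, Bool.false_eq_true, if_false]
    refine ⟨hu, w, hw, Con.mono ?_ h1⟩
    rintro z ⟨⟨hz1, hz2⟩, hz3⟩
    have hz4 : n ≤ sd x z := by
      have := hG hz1
      simpa [HS] using this
    exact ⟨⟨hz4, hz3⟩, by rw [hcu]; exact hz2⟩
  · simp only [gap, if_true] at hg
    simp only [far, if_true] at hp
    obtain ⟨w, hw, h1, -⟩ := hs.enter (m := n') (by omega) hp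
    simp only [crX, if_true]
    refine ⟨hu, w, hw, Con.mono ?_ h1⟩
    rintro z ⟨⟨hz1, hz2⟩, hz3⟩
    have hz4 : sd x z ≤ n := by
      have := hG hz1
      simpa [HS, box] using this
    exact ⟨⟨hz3, hz4⟩, by rw [hcu]; exact hz2⟩

theorem NT (hD3 : D3_stmt) (hCG1 : CG1_stmt) (hCG2 : CG2_stmt) : NT_stmt := by
  intro c j s x n n' r₁ r₂ r₃ a D T hj hx hn' hgap ha har h12 h23 h3n h8 hD hT hnet hB1 hB2 hF
  obtain ⟨u, hOrd, hu⟩ := hF
  have hn : 1 ≤ n := by omega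
  choose! hub hu using hu
  choose! p hpI hpc using hu
  have hcol : ∀ i < j, c (u i) = kol i := fun i hi => (hpc i hi).colour_right
  -- the other end points are beyond `bd x n'`
  have hfar : ∀ i < j, far s x n' (p i) := by
    intro i hi
    have h1 := hpI i hi
    unfold Dat.ok at hD
    unfold far
    cases s
    · simp only [Bool.false_eq_true, if_false] at hD ⊢
      have h2 : n' + 1 ≤ sd x (p i) := hD.1 i h1
      omega
    · simp only [if_true] at hD ⊢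
      have h2 : sd x (p i) ≤ n' - 1 := hD.1 i h1
      omega
  have hcr : ∀ i < j, crX s c x n n' (u i) := fun i hi =>
    NT_crX hgap (hub i hi) (hcol i hi) (hfar i hi) Set.sdiff_subset (hpc i hi)
  obtain ⟨u', hOrd', h1, hsep, hav⟩ := hD3 j s c x n n' r₁ r₂ r₃ hj hx hn' hgap (by omega) h12 h8 h23
    h3n hB1 hB2 u hOrd fun i hi => ⟨hcol i hi, hcr i hi⟩
  -- the net points
  have hex : ∀ l, ∃ t, l < j → t ∈ T ∧ sd t (u' l) ≤ a := by
    intro l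
    by_cases hl : l < j
    · obtain ⟨t, ht, ht'⟩ := hnet (u' l) (h1 l hl).1
      exact ⟨t, fun _ => ⟨ht, ht'⟩⟩
    · exact ⟨x, fun h => absurd h hl⟩
  choose y hy using hex
  have hyb : ∀ l < j, y l ∈ bd x n := fun l hl => hT (hy l hl).1
  have hyc : ∀ l < j, sd (u' l) (y l) ≤ a := fun l hl => by
    rw [sd_comm]; exact (hy l hl).2
  refine ⟨y, fun l hl => (hy l hl).1, ?_, ?_, ?_⟩
  · refine NT_Ord hj hCG1 hCG2 hn hOrd' hyb hyc fun l hl l' hl' hll => ?_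
    have := hsep l hl l' hl' hll
    omega
  · intro l hl l' hl' hll
    have h2 := hsep l hl l' hl' hll
    have h3 := sd_triangle (u' l) (y l) (u' l')
    have h4 := sd_triangle (y l) (y l') (u' l')
    have h5 := hyc l hl
    have h6 := (hy l' hl').2
    omega
  · have key : ∀ k, MrkC c j s x n D y a (r₁ / 2) k := by
      intro k
      left
      intro i hi hik
      refine ⟨p i, hpI i hi, u' i, (h1 i hi).1, (hy i hi).2, ?_⟩
      -- the arm prolonged to `u' i`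
      have hNd : AN s x n n' ⊆ HS s x n \ D.N k := by
        intro z hz
        unfold Dat.ok at hD
        unfold AN at hz
        unfold HS
        cases s
        · simp only [Bool.false_eq_true, if_false] at hD hz ⊢
          refine ⟨hz.1, fun hzN => ?_⟩
          have h2 : n' + 1 ≤ sd x z := hD.2.1 k hzN
          have h3 : sd x z ≤ n' := hz.2
          omega
        · simp only [if_true] at hD hz ⊢
          refine ⟨hz.2, fun hzN => ?_⟩
          have h2 : sd x z ≤ n' - 1 := hD.2 k hzN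
          have h3 : n' ≤ sd x z := hz.1
          omega
      have h2 : Conn c k (HS s x n \ D.N k) (p i) (u' i) := by
        have h3 := hpc i hi
        have h4 := (h1 i hi).2
        rw [hik] at h3 h4
        exact h3.trans (h4.mono hNd)
      obtain ⟨l, hl, hln⟩ := Con.exists_path h2.symm
      have hl' : IsPath {v | v ∈ HS s x n ∧ c v = kol i} l (u' i) (p i) := by
        refine hl.mono fun z hz => ?_
        rw [hik]
        exact ⟨hz.1.1, hz.2⟩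
      have h3 : IsPath {v | v ∈ HS s x n \ (D.N k ∪ opp j y (r₁ / 2) k) ∧ c v = k} l (u' i)
          (p i) := by
        refine hl.self.mono fun z hz => ?_
        have hz1 := hl.subset z hz
        refine ⟨⟨hz1.1.1, ?_⟩, hz1.2⟩
        rintro (hzN | ⟨i', hi', hki', hzo⟩)
        · exact hz1.1.2 hzN
        · have h4 := hav i hi i' hi' (by rw [hik]; exact fun e => hki' e.symm) (p i) l (hfar i hi)
            hl' hln z hz
          have h5 := sd_triangle (u' i') (y i') z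
          have h6 := hyc i' hi'
          omega
      exact h3.con.symm
    exact ⟨key true, key false⟩

end DP
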